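import Mathlib

set_option autoImplicit false

namespace Pool.Agent.MP_36375e_gt

/-- A real function on a space X is scatteredly continuous if for every nonempty subset A of X
the restriction of f to A (subspace topology) has a point of continuity. -/
def ScatteredlyContinuous {X : Type} [TopologicalSpace X] (f : X → ℝ) : Prop :=
  ∀ A : Set X, A.Nonempty → ∃ x : A, ContinuousAt (fun y : A => f y) x

end Pool.Agent.MP_36375e_gt
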